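import Mathlib

set_option autoImplicit false

namespace H375.Tr

theorem log_pos_of {κ : ℝ} (h : (0.69 : ℝ) ≤ κ) : -(0.38 : ℝ) ≤ Real.log κ := by
  have h1 : Real.log (0.69 : ℝ) ≤ Real.log κ := Real.log_le_log (by norm_num) h
  have h2 : -(0.38 : ℝ) ≤ Real.log (0.69 : ℝ) := by
    have h3 : Real.log (100 / 69 : ℝ) ≤ 0.38 := by
      rw [Real.log_le_iff_le_exp (by norm_num)]
      have := Real.sum_le_exp_of_nonneg (x := 0.38) (by norm_num) 5
      refine le_trans ?_ this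
      norm_num [Finset.sum_range_succ, Nat.factorial]
    have h4 : Real.log (0.69 : ℝ) = -Real.log (100 / 69 : ℝ) := by
      rw [← Real.log_inv]; norm_num
    rw [h4]; linarith
  linarith

theorem exp_four_le : Real.exp 4 ≤ 55 := by
  have h1 := Real.exp_one_lt_d9
  have h2 : Real.exp 4 = Real.exp 1 ^ 4 := by
    rw [← Real.exp_nat_mul]; norm_num
  rw [h2]
  calc Real.exp 1 ^ 4 ≤ 2.72 ^ 4 := pow_le_pow_left₀ (Real.exp_pos _).le (by linarith) 4
    _ ≤ 55 := by norm_num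

theorem exp_neg_two_le : Real.exp (-2) ≤ 1 / 4 := by
  rw [Real.exp_neg, one_div]
  apply inv_anti₀ (by norm_num)
  have h3 : Real.exp 2 = Real.exp 1 ^ 2 := by
    rw [← Real.exp_nat_mul]; norm_num
  have h4 := Real.exp_one_gt_d9
  rw [h3]
  nlinarith

theorem params {κ lK : ℝ} {s : ℕ} (hκ : (0.69 : ℝ) ≤ κ) (hlK : lK ≤ κ) (hs : 1 ≤ s) :
    ∃ (j : ℕ) (b ε D : ℝ), b = 2 * κ * (2 * j + 2) * (1 + 1 / ((48 * s : ℕ) : ℝ)) ^ (2 * j + 1) ∧
      D = 2 * ((48 * s : ℕ) : ℝ) * κ ∧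
      ε = 2 * κ * (j + 2) * (1 + 1 / ((48 * s : ℕ) : ℝ)) ^ (j + 1) / 2 ^ j ∧
      4 * Real.sqrt ε ≤ 1 / 24 ∧
      (1 / 4 : ℝ) ^ (2 ^ j) ≤ Real.exp (-(2 * b + 2 * lK + 2 * D)) / 4 ∧
      2 * b + 2 * lK + 2 * D + Real.log 8 ≤ 60000 * s * (κ * κ ^ (1 / (s : ℝ))) := by
  have hκ0 : 0 < κ := by linarith
  have hs1 : (1 : ℝ) ≤ s := by exact_mod_cast hs
  have hs0 : (0 : ℝ) < s := by linarith
  obtain ⟨u, hu⟩ : ∃ u : ℝ, u = 48 * s * κ := ⟨_, rfl⟩
  have hu33 : (33 : ℝ) ≤ u := by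
    rw [hu]
    have : (0.69 : ℝ) ≤ s * κ := by nlinarith
    nlinarith
  obtain ⟨n, hn1, hn2⟩ := exists_nat_pow_near (show (1 : ℝ) ≤ u by linarith) (one_lt_two)
  obtain ⟨L, hLdef⟩ : ∃ L : ℕ, L = n + 1 := ⟨_, rfl⟩
  obtain ⟨x, hx⟩ : ∃ x : ℝ, x = 2 ^ L := ⟨_, rfl⟩
  have hux : u ≤ x := by rw [hx, hLdef]; exact hn2.le
  have hx2u : x ≤ 2 * u := by rw [hx, hLdef, pow_succ]; linarith
  have hx1 : 1 ≤ x := by linarith
  have hx0 : 0 < x := by linarith
  have hκx : κ ≤ x := by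
    refine le_trans ?_ hux
    rw [hu]
    have : κ * 1 ≤ κ * (48 * s) := mul_le_mul_of_nonneg_left (by linarith) hκ0.le
    linarith
  have hLx : (L : ℝ) + 1 ≤ x := by
    rw [hx]
    have := (Nat.lt_two_pow_self (n := L))
    exact_mod_cast this
  obtain ⟨σ, hσ⟩ : ∃ σ : ℝ, σ = ((48 * s : ℕ) : ℝ) := ⟨_, rfl⟩
  have hσs : σ = 48 * s := by rw [hσ]; push_cast; ring
  have hσ48 : 48 ≤ σ := by rw [hσs]; linarith
  have hσ0 : 0 < σ := by linarith
  obtain ⟨r, hr⟩ : ∃ r : ℝ, r = 1 + 1 / σ := ⟨_, rfl⟩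
  have hr1 : 1 ≤ r := by
    rw [hr]; have : 0 ≤ 1 / σ := by positivity
    linarith
  have hr0 : 0 ≤ r := by linarith
  have hr49 : r ≤ 49 / 48 := by
    rw [hr]
    have : 1 / σ ≤ 1 / 48 := one_div_le_one_div_of_le (by norm_num) hσ48
    linarith
  have hr8 : r ^ 8 ≤ 2 := by
    calc r ^ 8 ≤ (49 / 48) ^ 8 := pow_le_pow_left₀ hr0 hr49 8
      _ ≤ 2 := by norm_num
  have hr80 : 0 ≤ r ^ 8 := by positivity
  obtain ⟨j, hj⟩ : ∃ j : ℕ, j = 4 * L + 60 := ⟨_, rfl⟩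
  have hjr : (j : ℝ) = 4 * L + 60 := by rw [hj]; push_cast; ring
  have hrj : r ^ (2 * j + 1) ≤ x * 2 ^ 16 := by
    calc r ^ (2 * j + 1) ≤ r ^ (8 * L + 8 * 16) := pow_le_pow_right₀ hr1 (by omega)
      _ = (r ^ 8) ^ L * (r ^ 8) ^ 16 := by rw [pow_add, pow_mul, pow_mul]
      _ ≤ 2 ^ L * 2 ^ 16 := by
          apply mul_le_mul (pow_le_pow_left₀ hr80 hr8 L) (pow_le_pow_left₀ hr80 hr8 16)
            (by positivity) (by positivity)
      _ = x * 2 ^ 16 := by rw [hx]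
  have hrj1 : r ^ (j + 1) ≤ x * 2 ^ 16 :=
    (pow_le_pow_right₀ hr1 (by omega)).trans hrj
  have hj2 : (j : ℝ) + 2 ≤ 62 * x := by
    rw [hjr]
    have := Nat.cast_nonneg (α := ℝ) L
    linarith
  have h2j : (2 : ℝ) ^ j = x ^ 4 * 2 ^ 60 := by
    rw [hj, pow_add, mul_comm 4 L, pow_mul, ← hx]
  obtain ⟨b, hb⟩ : ∃ b : ℝ, b = 2 * κ * (2 * j + 2) * r ^ (2 * j + 1) := ⟨_, rfl⟩
  obtain ⟨D, hD⟩ : ∃ D : ℝ, D = 2 * σ * κ := ⟨_, rfl⟩
  obtain ⟨ε, hε⟩ : ∃ ε : ℝ, ε = 2 * κ * (j + 2) * r ^ (j + 1) / 2 ^ j := ⟨_, rfl⟩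
  have hj0 : (0 : ℝ) ≤ j := Nat.cast_nonneg _
  have hb3 : b ≤ 2 ^ 24 * x ^ 3 := by
    rw [hb]
    have h1 : (2 * (j : ℝ) + 2) ≤ 124 * x := by linarith
    calc 2 * κ * (2 * j + 2) * r ^ (2 * j + 1) ≤ 2 * x * (124 * x) * (x * 2 ^ 16) := by gcongr
      _ = (248 * 2 ^ 16) * x ^ 3 := by ring
      _ ≤ 2 ^ 24 * x ^ 3 := by
          have : 0 ≤ x ^ 3 := by positivity
          exact mul_le_mul_of_nonneg_right (by norm_num) this
  have hDx : D ≤ 2 * x := by
    rw [hD, hσs]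
    have : 2 * (48 * (s : ℝ)) * κ = 2 * u := by rw [hu]; ring
    rw [this]; linarith
  have hE : 2 * b + 2 * lK + 2 * D + 2 ≤ 2 ^ 60 * x ^ 4 := by
    have h1 : x ≤ x ^ 4 := le_self_pow₀ hx1 (by norm_num)
    have h2 : x ^ 3 ≤ x ^ 4 := pow_le_pow_right₀ hx1 (by norm_num)
    have h3 : 1 ≤ x ^ 4 := one_le_pow₀ hx1
    linarith
  have hrw : ((48 * s : ℕ) : ℝ) = σ := hσ.symm
  refine ⟨j, b, ε, D, ?_, ?_, ?_, ?_, ?_, ?_⟩
  · rw [hrw, ← hr]; exact hb
  · rw [hrw]; exact hD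
  · rw [hrw, ← hr]; exact hε
  · have hε1 : ε ≤ (1 / 96) ^ 2 := by
      rw [hε, h2j, div_le_iff₀ (by positivity)]
      calc 2 * κ * (j + 2) * r ^ (j + 1) ≤ 2 * x * (62 * x) * (x * 2 ^ 16) := by gcongr
        _ = (124 * 2 ^ 16) * x ^ 3 := by ring
        _ ≤ (1 / 96) ^ 2 * (x ^ 4 * 2 ^ 60) := by
            have h2 : x ^ 3 ≤ x ^ 4 := pow_le_pow_right₀ hx1 (by norm_num)
            have h3 : 0 ≤ x ^ 3 := by positivity
            linarith
    have h1 : Real.sqrt ε ≤ 1 / 96 := by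
      rw [← Real.sqrt_sq (show (0 : ℝ) ≤ 1 / 96 by norm_num)]
      exact Real.sqrt_le_sqrt hε1
    linarith
  · have hl4 : (1 : ℝ) ≤ Real.log 4 := by
      rw [Real.le_log_iff_exp_le (by norm_num)]
      have := Real.exp_one_lt_d9
      linarith
    have h1 : (1 / 4 : ℝ) ^ (2 ^ j) = Real.exp (-((2 ^ j : ℕ) * Real.log 4)) := by
      rw [← Real.rpow_natCast, Real.rpow_def_of_pos (by norm_num)]
      congr 1
      rw [one_div, Real.log_inv]
      ring
    have h2 := exp_neg_two_le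
    rw [h1]
    calc Real.exp (-((2 ^ j : ℕ) * Real.log 4)) ≤
          Real.exp (-(2 * b + 2 * lK + 2 * D) + (-2)) := by
          apply Real.exp_le_exp.2
          have h3 : ((2 ^ j : ℕ) : ℝ) = 2 ^ 60 * x ^ 4 := by
            push_cast; rw [h2j]; ring
          have h4 : ((2 ^ j : ℕ) : ℝ) * 1 ≤ ((2 ^ j : ℕ) : ℝ) * Real.log 4 :=
            mul_le_mul_of_nonneg_left hl4 (Nat.cast_nonneg _)
          rw [h3] at h4 ⊢
          linarith
      _ = Real.exp (-(2 * b + 2 * lK + 2 * D)) * Real.exp (-2) := Real.exp_add _ _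
      _ ≤ Real.exp (-(2 * b + 2 * lK + 2 * D)) * (1 / 4) :=
          mul_le_mul_of_nonneg_left h2 (Real.exp_pos _).le
      _ = _ := by ring
  · -- size of the exponent
    obtain ⟨g, hg⟩ : ∃ g : ℝ, g = Real.log κ / s := ⟨_, rfl⟩
    have hpow : κ ^ (1 / (s : ℝ)) = Real.exp g := by
      rw [Real.rpow_def_of_pos hκ0, hg]; congr 1; ring
    have hlκ : Real.log κ = s * g := by rw [hg]; field_simp
    have hlk := log_pos_of hκ
    have hg38 : -(0.38 : ℝ) ≤ g := by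
      rw [hg, le_div_iff₀ hs0]
      linarith
    obtain ⟨ℓ, hℓ⟩ : ∃ ℓ : ℝ, ℓ = Real.log (2 * u) := ⟨_, rfl⟩
    have hℓ2 : ℓ ≤ 4.86 + s + s * g := by
      have h1 : 2 * u = 96 * (s * κ) := by rw [hu]; ring
      rw [hℓ, h1, Real.log_mul (by norm_num) (by positivity), Real.log_mul (by positivity)
        (by positivity), hlκ]
      have h2 : Real.log 96 ≤ 4.86 := by
        have h3 : Real.log 96 ≤ Real.log (2 ^ 7) := Real.log_le_log (by norm_num) (by norm_num)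
        have h4 : Real.log ((2 : ℝ) ^ 7) = 7 * Real.log 2 := by rw [Real.log_pow]; norm_num
        have h5 := Real.log_two_lt_d9
        rw [h4] at h3
        linarith
      have h3 : Real.log (s : ℝ) ≤ s := (Real.log_le_sub_one_of_pos hs0).trans (by linarith)
      linarith
    have hLℓ : (L : ℝ) ≤ 1.5 * ℓ := by
      have h1 : (L : ℝ) * Real.log 2 ≤ ℓ := by
        rw [hℓ, ← Real.log_pow, ← hx]
        exact Real.log_le_log hx0 hx2u
      have h2 := Real.log_two_gt_d9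
      have h3 : (0 : ℝ) ≤ L := Nat.cast_nonneg _
      have h4 := mul_le_mul_of_nonneg_left h2.le h3
      linarith
    have hj22 : 2 * (j : ℝ) + 2 ≤ s * (232 * Real.exp (g / 2)) := by
      have h1 : 2 * (j : ℝ) + 2 ≤ s * (192.4 + 12 * g) := by
        rw [hjr]
        linarith
      refine h1.trans (mul_le_mul_of_nonneg_left ?_ hs0.le)
      have h2 := Real.add_one_le_exp (g / 2)
      linarith
    have hrexp : r ^ (2 * j + 1) ≤ Real.exp (4 + g / 4) := by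
      have h1 : r ≤ Real.exp (1 / σ) := by
        rw [hr]
        have := Real.add_one_le_exp (1 / σ)
        linarith
      calc r ^ (2 * j + 1) ≤ (Real.exp (1 / σ)) ^ (2 * j + 1) := pow_le_pow_left₀ hr0 h1 _
        _ = Real.exp (((2 * j + 1 : ℕ) : ℝ) * (1 / σ)) := by rw [← Real.exp_nat_mul]
        _ ≤ Real.exp (4 + g / 4) := by
            apply Real.exp_le_exp.2
            rw [mul_one_div, div_le_iff₀ hσ0, hσs]
            push_cast
            rw [hjr]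
            linarith
    have hb4 : b ≤ 28400 * (κ * s * Real.exp g) := by
      rw [hb]
      have e1 : Real.exp (g / 2) * Real.exp (4 + g / 4) =
          Real.exp 4 * (Real.exp g * Real.exp (-(g / 4))) := by
        rw [← Real.exp_add, ← Real.exp_add, ← Real.exp_add]; congr 1; ring
      have e2 : Real.exp (-(g / 4)) ≤ 1.11 := by
        rw [Real.exp_neg]
        have h1 := Real.add_one_le_exp (g / 4)
        have h2 : (0.905 : ℝ) ≤ Real.exp (g / 4) := by linarith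
        calc (Real.exp (g / 4))⁻¹ ≤ (0.905 : ℝ)⁻¹ := inv_anti₀ (by norm_num) h2
          _ ≤ 1.11 := by norm_num
      calc 2 * κ * (2 * j + 2) * r ^ (2 * j + 1)
          ≤ 2 * κ * (s * (232 * Real.exp (g / 2))) * Real.exp (4 + g / 4) := by gcongr
        _ = 464 * κ * s * (Real.exp (g / 2) * Real.exp (4 + g / 4)) := by ring
        _ = 464 * κ * s * (Real.exp 4 * (Real.exp g * Real.exp (-(g / 4)))) := by rw [e1]
        _ ≤ 464 * κ * s * (55 * (Real.exp g * 1.11)) := by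
            gcongr
            exact exp_four_le
        _ ≤ 28400 * (κ * s * Real.exp g) := by
            have : 0 ≤ κ * s * Real.exp g := by positivity
            linarith
    have hrest : 2 * lK + 2 * D + Real.log 8 ≤ 198 * (s * κ) := by
      have h8 : Real.log 8 = 3 * Real.log 2 := by
        rw [show (8 : ℝ) = 2 ^ 3 by norm_num, Real.log_pow]; norm_num
      have h9 := Real.log_two_lt_d9
      have h10 : κ ≤ s * κ := le_mul_of_one_le_left hκ0.le hs1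
      rw [hD, hσs, h8]
      linarith
    have hexpg : (0.62 : ℝ) ≤ Real.exp g := by
      have := Real.add_one_le_exp g
      linarith
    have hsκ : 0 < s * κ := by positivity
    rw [hpow]
    have h11 : 198 * (s * κ) ≤ 320 * (s * κ * Real.exp g) := by
      have : s * κ * 0.62 ≤ s * κ * Real.exp g := mul_le_mul_of_nonneg_left hexpg hsκ.le
      linarith
    have h12 : κ * s * Real.exp g = s * κ * Real.exp g := by ring
    rw [h12] at hb4
    have h13 : 60000 * s * (κ * Real.exp g) = 60000 * (s * κ * Real.exp g) := by ring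
    rw [h13]
    have h14 : 0 ≤ s * κ * Real.exp g := by positivity
    linarith

end H375.Tr
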