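import Pool.Agent.H375R3.Tr.Low
import Pool.Agent.H375R3.Tr.Num
import Pool.Agent.H112R2.Final

set_option autoImplicit false
open scoped Pointwise

namespace H375.Tr

open H112 H375.Pack

theorem exp_le_pow {K x : ℝ} {n : ℕ} (hK : 1 ≤ K) (h : x ≤ n * Real.log (2 * K)) :
    Real.exp x ≤ (2 * K) ^ n := by
  have h1 : (0 : ℝ) < 2 * K := by linarith
  calc Real.exp x ≤ Real.exp (n * Real.log (2 * K)) := Real.exp_le_exp.2 h
    _ = (2 * K) ^ n := by rw [Real.exp_nat_mul, Real.exp_log h1]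

theorem final_fg {G : Type*} [AddCommGroup G] [AddGroup.FG G] [DecidableEq G] {K : ℝ}
    {A : Finset G} (hA : A.Nonempty) (hK : ((A + A).card : ℝ) ≤ K * A.card) (hK1 : 1 ≤ K)
    {s : ℕ} (hs : 1 ≤ s) :
    ∃ (d : ℕ) (B : Set (Fin d → ℝ)) (ψ : (Fin d → ℤ) →+ G) (H₀ : AddSubgroup G) (T : Finset G),
      (d : ℝ) ≤ 100000 * s * Real.log (2 * K) ∧ SymmBody B ∧ Finite H₀ ∧
      (∀ x y : Fin d → ℤ, (fun i => (x i : ℝ)) ∈ B → (fun i => (y i : ℝ)) ∈ B →
        ψ x - ψ y ∈ H₀ → x = y) ∧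
      ({c : Fin d → ℤ | (fun i => (c i : ℝ)) ∈ B}.ncard * Nat.card H₀ : ℝ) ≤
        Real.exp (60000 * s * (Real.log (2 * K) * Real.log (2 * K) ^ (1 / (s : ℝ)))) * A.card ∧
      (T.card : ℝ) ≤ (2 * K) ^ (40000 * s) ∧
      Covers B ψ H₀ T A := by
  classical
  obtain ⟨κ, hκ⟩ : ∃ κ : ℝ, κ = Real.log (2 * K) := ⟨_, rfl⟩
  have hs1 : (1 : ℝ) ≤ s := by exact_mod_cast hs
  have hκlog2 : Real.log 2 ≤ κ := by
    rw [hκ]; exact Real.log_le_log (by norm_num) (by linarith)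
  have hκ69 : (0.69 : ℝ) ≤ κ := by
    have := Real.log_two_gt_d9
    linarith
  have hlogK : Real.log K ≤ κ := by
    rw [hκ]; exact Real.log_le_log (by linarith) (by linarith)
  obtain ⟨j, b, ε, D, hb, hD, hε, hρ, h4, hV⟩ := params hκ69 hlogK hs
  obtain ⟨S, X, hfin, hsize, hX, hXcard⟩ :=
    core' hA hK hK1 j (s := 48 * s) (by omega) hκ hb hD hε hρ h4
  obtain ⟨m, N, ψ, hN, h1, h2, -⟩ :=
    lattice_repr S hfin (ρ := 1 / 24) (by norm_num) (by norm_num)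
  haveI := ann_finite hfin
  obtain ⟨N₁, hN₁⟩ : ∃ N₁ : Seminorm ℝ (Fin m → ℝ), ∀ x, N₁ x = 24 * N x :=
    ⟨(24 : NNReal) • N, fun x => rfl⟩
  have hN₁0 : ∀ x, N₁ x = 0 → x = 0 := by
    intro x hx
    rw [hN₁] at hx
    exact hN x (by linarith)
  have hLL : ∀ (c : Fin m → ℤ) (r : ℝ), c ∈ LL N₁ r ↔ c ∈ LL N (r / 24) := by
    intro c r
    show N₁ _ ≤ r ↔ N _ ≤ r / 24
    rw [hN₁, le_div_iff₀ (by norm_num), mul_comm]
  -- differences in the annihilator
  have hker : ∀ c : Fin m → ℤ, N (fun i => (c i : ℝ)) < 1 / 2 → ψ c ∈ ann S → c = 0 := by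
    intro c hc hmem
    exact LL_zero hN ((h1 c hc 0 le_rfl).1 (bohr_zero_of_ann hmem le_rfl))
  have hprop : ∀ x y : Fin m → ℤ, x ∈ LL N₁ 2 → y ∈ LL N₁ 2 → ψ x - ψ y ∈ ann S → x = y := by
    intro x y hx hy h
    rw [hLL] at hx hy
    rw [← map_sub] at h
    apply sub_eq_zero.1
    apply hker _ _ h
    have h3 : N (fun i => (((x - y) i : ℤ) : ℝ)) ≤ 2 / 24 + 2 / 24 := LL_sub N hx hy
    linarith
  obtain ⟨M, hM⟩ : ∃ M : ℝ, M = K * Real.exp (2 * D + 1) := ⟨_, rfl⟩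
  rw [← hM] at hXcard
  have hcov : ∀ a ∈ A, ∃ t ∈ X, ∃ x ∈ LL N₁ 1, ∃ h ∈ ann S, a = t + ψ x + h := by
    intro a ha
    obtain ⟨t, ht, hb⟩ := hX a ha
    obtain ⟨c, hc, hc2⟩ := h2 _ hb
    exact ⟨t, ht, c, (hLL c 1).2 hc, _, hc2, by abel⟩
  obtain ⟨m', e, N', F, -, hM1, hm', he, hN', hNN', hF, hcov'⟩ :=
    lowrank K M A hA hK m N₁ hN₁0 ψ (ann S) hprop X hXcard hcov
  -- size of log M
  have hDs : D = 96 * (s * κ) := by rw [hD]; push_cast; ring
  have hsκ : κ ≤ s * κ := by nlinarith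
  have hKM : Real.log (K * M) ≤ 196 * (s * κ) := by
    have hK0 : 0 < K := by linarith
    rw [hM, Real.log_mul (by positivity) (by positivity), Real.log_mul (by positivity)
      (by positivity), Real.log_exp, hDs]
    nlinarith
  have hKM0 : 0 < K * M := by positivity
  have hKMexp : K * M ≤ Real.exp (196 * (s * κ)) := by
    rw [← Real.log_le_iff_le_exp hKM0]; exact hKM
  refine ⟨m', {x | N' x ≤ 2}, ψ.comp e, ann S, F, ?_, symmBody_ball N' hN' (by norm_num),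
    inferInstance, ?_, ?_, ?_, ?_⟩
  · rw [← hκ]
    nlinarith
  · intro x y hx hy h
    apply he
    apply hprop
    · show N₁ _ ≤ 2
      rw [← hNN']; exact hx
    · show N₁ _ ≤ 2
      rw [← hNN']; exact hy
    · exact h
  · rw [← hκ]
    obtain ⟨hfL, hcL⟩ := card_LL_le hfin hN h1 (R := 1 / 12) (by norm_num) (by norm_num)
    have h5 : {c : Fin m' → ℤ | (fun i => (c i : ℝ)) ∈ {x : Fin m' → ℝ | N' x ≤ 2}}.ncard ≤
        (LL N (1 / 12)).ncard := by
      refine Set.ncard_le_ncard_of_injOn e ?_ he.injOn hfL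
      intro c hc
      have h6 : N₁ (fun j => ((e c j : ℤ) : ℝ)) ≤ 2 := by
        rw [← hNN']; exact hc
      have h7 : e c ∈ LL N₁ 2 := h6
      rw [hLL] at h7
      norm_num at h7
      exact h7
    have h8 : (((LL N (1 / 12)).ncard * Nat.card (ann S) : ℕ) : ℝ) ≤
        ((bohr S (1 / 6)).ncard : ℝ) := by exact_mod_cast hcL
    have h9 : 8 * Real.exp (2 * b + 2 * Real.log K + 2 * D) ≤
        Real.exp (60000 * s * (κ * κ ^ (1 / (s : ℝ)))) := by
      have h10 : (8 : ℝ) = Real.exp (Real.log 8) := (Real.exp_log (by norm_num)).symm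
      rw [h10, ← Real.exp_add]
      apply Real.exp_le_exp.2
      linarith
    calc ({c : Fin m' → ℤ | (fun i => (c i : ℝ)) ∈ {x : Fin m' → ℝ | N' x ≤ 2}}.ncard *
          Nat.card (ann S) : ℝ)
        ≤ (LL N (1 / 12)).ncard * Nat.card (ann S) := by
          gcongr
      _ = (((LL N (1 / 12)).ncard * Nat.card (ann S) : ℕ) : ℝ) := by push_cast; ring
      _ ≤ ((bohr S (1 / 6)).ncard : ℝ) := h8
      _ ≤ (8 * Real.exp (2 * b + 2 * Real.log K + 2 * D)) * A.card := hsize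
      _ ≤ _ := mul_le_mul_of_nonneg_right h9 (Nat.cast_nonneg _)
  · refine hF.trans ?_
    calc (K * M) ^ 186 ≤ (Real.exp (196 * (s * κ))) ^ 186 := pow_le_pow_left₀ hKM0.le hKMexp _
      _ = Real.exp (((186 : ℕ) : ℝ) * (196 * (s * κ))) := (Real.exp_nat_mul _ _).symm
      _ ≤ (2 * K) ^ (40000 * s) := by
          apply exp_le_pow hK1
          rw [← hκ]
          push_cast
          nlinarith
  · intro a ha
    exact hcov' a ha

theorem final {G : Type*} [AddCommGroup G] [DecidableEq G] {K : ℝ}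
    {A : Finset G} (hA : A.Nonempty) (hK : ((A + A).card : ℝ) ≤ K * A.card)
    {s : ℕ} (hs : 1 ≤ s) :
    ∃ (d : ℕ) (B : Set (Fin d → ℝ)) (ψ : (Fin d → ℤ) →+ G) (H₀ : AddSubgroup G) (T : Finset G),
      (d : ℝ) ≤ 100000 * s * Real.log (2 * K) ∧ SymmBody B ∧ Finite H₀ ∧
      (∀ x y : Fin d → ℤ, (fun i => (x i : ℝ)) ∈ B → (fun i => (y i : ℝ)) ∈ B →
        ψ x - ψ y ∈ H₀ → x = y) ∧
      ({c : Fin d → ℤ | (fun i => (c i : ℝ)) ∈ B}.ncard * Nat.card H₀ : ℝ) ≤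
        Real.exp (60000 * s * (Real.log (2 * K) * Real.log (2 * K) ^ (1 / (s : ℝ)))) * A.card ∧
      (T.card : ℝ) ≤ (2 * K) ^ (40000 * s) ∧
      Covers B ψ H₀ T A := by
  classical
  have hApos : (0 : ℝ) < A.card := by exact_mod_cast hA.card_pos
  have hK1 : 1 ≤ K := by
    have h1 : (A.card : ℝ) ≤ (A + A).card := by
      exact_mod_cast Finset.card_le_card_add_right hA
    nlinarith
  obtain ⟨Γ, hΓ⟩ : ∃ Γ : AddSubgroup G, Γ = AddSubgroup.closure (A : Set G) := ⟨_, rfl⟩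
  obtain ⟨A', hA'⟩ := exists_model A Γ (fun a ha => by
    rw [hΓ]; exact AddSubgroup.subset_closure ha)
  have hinj : Function.Injective Γ.subtype := Γ.subtype_injective
  haveI : AddGroup.FG Γ := by
    rw [AddGroup.fg_iff_addSubgroup_fg]
    exact ⟨A, hΓ.symm⟩
  have hA'ne : A'.Nonempty := by
    rw [← hA'] at hA; exact Finset.image_nonempty.1 hA
  have hcard : A'.card = A.card := by
    rw [← hA', Finset.card_image_of_injective _ hinj]
  have hcard2 : (A' + A').card = (A + A).card := by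
    rw [← hA', ← Finset.image_add, Finset.card_image_of_injective _ hinj]
  have hK' : ((A' + A').card : ℝ) ≤ K * A'.card := by rw [hcard2, hcard]; exact hK
  obtain ⟨d, B, ψ, H₀, T, hd, hB, hH₀, hpr, hvol, hT, hcov⟩ := final_fg hA'ne hK' hK1 hs
  refine ⟨d, B, Γ.subtype.comp ψ, H₀.map Γ.subtype, T.image Γ.subtype, hd, hB, ?_, ?_, ?_, ?_, ?_⟩
  · have : (H₀.map Γ.subtype : Set G).Finite := by
      rw [AddSubgroup.coe_map]
      exact (Set.toFinite (H₀ : Set Γ)).image _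
    exact this.to_subtype
  · intro x y hx hy h
    apply hpr x y hx hy
    obtain ⟨z, hz, hzz⟩ := h
    have h1 : Γ.subtype (ψ x - ψ y) = Γ.subtype z := by
      rw [map_sub]; exact hzz.symm
    rw [hinj h1]
    exact hz
  · have h1 : Nat.card (H₀.map Γ.subtype) = Nat.card H₀ :=
      Nat.card_congr (H₀.equivMapOfInjective Γ.subtype hinj).toEquiv.symm
    rw [h1, ← hcard]
    exact hvol
  · refine le_trans ?_ hT
    exact_mod_cast Finset.card_image_le
  · intro a ha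
    rw [← hA'] at ha
    obtain ⟨a', ha', rfl⟩ := Finset.mem_image.1 ha
    obtain ⟨t, ht, c, hc, h, hh, e⟩ := hcov a' ha'
    refine ⟨Γ.subtype t, Finset.mem_image_of_mem _ ht, c, hc, Γ.subtype h, ⟨h, hh, rfl⟩, ?_⟩
    rw [e, map_add, map_add]
    rfl

end H375.Tr
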