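import Pool.Agent.H375R3.Dim.Main
import Pool.Agent.H375R3.Tr.Pair

set_option autoImplicit false
open scoped Pointwise

namespace H375.Tr

open H112 H375.Pack H375.Geo H375.Rank H375.Main

/-- weak Marton inside a proper coset progression: the rank of the progression can be taken
logarithmic. -/
theorem lowrank {G : Type*} [AddCommGroup G] [DecidableEq G] (K M : ℝ) (A : Finset G)
    (hA : A.Nonempty) (hK : ((A + A).card : ℝ) ≤ K * A.card)
    (d : ℕ) (N : Seminorm ℝ (Fin d → ℝ)) (hN : ∀ x, N x = 0 → x = 0)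
    (ψ : (Fin d → ℤ) →+ G) (H : AddSubgroup G)
    (hprop : ∀ x y : Fin d → ℤ, x ∈ LL N 2 → y ∈ LL N 2 → ψ x - ψ y ∈ H → x = y)
    (T₀ : Finset G) (hT₀ : (T₀.card : ℝ) ≤ M)
    (hcov : ∀ a ∈ A, ∃ t ∈ T₀, ∃ x ∈ LL N 1, ∃ h ∈ H, a = t + ψ x + h) :
    ∃ (m : ℕ) (e : (Fin m → ℤ) →+ (Fin d → ℤ)) (N' : Seminorm ℝ (Fin m → ℝ)) (F : Finset G),
      1 ≤ K ∧ 1 ≤ M ∧ (m : ℝ) ≤ 480 * Real.log (K * M) + 1 ∧ Function.Injective e ∧
      (∀ x, N' x = 0 → x = 0) ∧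
      (∀ c : Fin m → ℤ, N' (fun i => (c i : ℝ)) = N (fun j => ((e c j : ℤ) : ℝ))) ∧
      (F.card : ℝ) ≤ (K * M) ^ 186 ∧
      ∀ a ∈ A, ∃ x ∈ F, ∃ c ∈ LL N' 2, ∃ h ∈ H, a = x + (ψ.comp e) c + h := by
  classical
  have hAc : (0 : ℝ) < A.card := by exact_mod_cast hA.card_pos
  have hK1 : 1 ≤ K := by
    have h1 : (A.card : ℝ) ≤ (A + A).card := by
      exact_mod_cast Finset.card_le_card_add_right hA
    nlinarith
  have hM1 : 1 ≤ M := by
    refine le_trans ?_ hT₀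
    obtain ⟨a, ha⟩ := hA
    obtain ⟨t, ht, _⟩ := hcov a ha
    exact_mod_cast Finset.card_pos.2 ⟨t, ht⟩
  -- one piece
  obtain ⟨t, htT, hpig⟩ := pigeon A T₀
    (fun t a => ∃ x ∈ LL N 1, ∃ h ∈ H, a = t + ψ x + h) hA hcov
  obtain ⟨A₁, hA₁⟩ : ∃ A₁ : Finset G, A₁ = A.filter
    (fun a => ∃ x ∈ LL N 1, ∃ h ∈ H, a = t + ψ x + h) := ⟨_, rfl⟩
  rw [← hA₁] at hpig
  have hA₁A : A₁ ⊆ A := by rw [hA₁]; exact Finset.filter_subset _ _
  have hA₁c : (A.card : ℝ) ≤ M * A₁.card := by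
    calc (A.card : ℝ) ≤ T₀.card * A₁.card := by exact_mod_cast hpig
      _ ≤ M * A₁.card := by gcongr
  have hA₁ne : A₁.Nonempty := by
    rw [← Finset.card_pos]
    by_contra h
    have : A₁.card = 0 := by omega
    rw [this, Nat.cast_zero, mul_zero] at hA₁c
    linarith
  -- lift
  have hlift : ∀ a : G, ∃ p : (Fin d → ℤ) × H, a ∈ A₁ → p.1 ∈ LL N 1 ∧ a = t + ψ p.1 + p.2 := by
    intro a
    by_cases ha : a ∈ A₁
    · have ha' := ha
      rw [hA₁] at ha'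
      obtain ⟨x, hx, h, hh, e⟩ := (Finset.mem_filter.1 ha').2
      exact ⟨(x, ⟨h, hh⟩), fun _ => ⟨hx, e⟩⟩
    · exact ⟨0, fun h => absurd h ha⟩
  choose ℓ hℓ using hlift
  obtain ⟨A₂, hA₂⟩ : ∃ A₂, A₂ = A₁.image ℓ := ⟨_, rfl⟩
  obtain ⟨π, hπ⟩ : ∃ π : (Fin d → ℤ) × H → G, π = fun p => t + ψ p.1 + p.2 := ⟨_, rfl⟩
  have hπ' : ∀ p, π p = t + ψ p.1 + p.2 := fun p => by rw [hπ]
  have hπℓ : ∀ a ∈ A₁, π (ℓ a) = a := by
    intro a ha
    rw [hπ']
    exact (hℓ a ha).2.symm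
  have hℓinj : Set.InjOn ℓ (A₁ : Set G) := by
    intro a ha b hb h
    rw [← hπℓ a ha, ← hπℓ b hb, h]
  have hA₂c : A₂.card = A₁.card := by rw [hA₂, Finset.card_image_of_injOn hℓinj]
  have hA₂1 : ∀ p ∈ A₂, p.1 ∈ LL N 1 ∧ π p ∈ A₁ := by
    intro p hp
    rw [hA₂] at hp
    obtain ⟨a, ha, rfl⟩ := Finset.mem_image.1 hp
    exact ⟨(hℓ a ha).1, by rw [hπℓ a ha]; exact ha⟩
  have hA₂ne : A₂.Nonempty := by rw [hA₂]; exact hA₁ne.image _
  have hsum : (A₂ + A₂).card ≤ (A + A).card := by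
    apply Finset.card_le_card_of_injOn (fun p => t + t + ψ p.1 + p.2)
    · intro p hp
      rw [Finset.mem_coe] at hp
      obtain ⟨a, ha, b, hb, rfl⟩ := Finset.mem_add.1 hp
      have h1 := Finset.add_mem_add (hA₁A (hA₂1 a ha).2) (hA₁A (hA₂1 b hb).2)
      have h2 : π a + π b = t + t + ψ (a + b).1 + ((a + b).2 : H) := by
        rw [hπ' a, hπ' b, Prod.fst_add, Prod.snd_add, map_add, AddSubgroup.coe_add]
        abel
      rw [h2] at h1
      exact h1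
    · intro p hp q hq h
      rw [Finset.mem_coe] at hp hq
      obtain ⟨a, ha, b, hb, rfl⟩ := Finset.mem_add.1 hp
      obtain ⟨a', ha', b', hb', rfl⟩ := Finset.mem_add.1 hq
      have hN1 : (a + b).1 ∈ LL N 2 := by
        have := LL_add' N (hA₂1 a ha).1 (hA₂1 b hb).1
        rwa [one_add_one_eq_two] at this
      have hN2 : (a' + b').1 ∈ LL N 2 := by
        have := LL_add' N (hA₂1 a' ha').1 (hA₂1 b' hb').1
        rwa [one_add_one_eq_two] at this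
      have h' : t + t + ψ (a + b).1 + ((a + b).2 : H) = t + t + ψ (a' + b').1 + ((a' + b').2 : H) := h
      have h1 : ψ (a + b).1 - ψ (a' + b').1 = (((a' + b').2 - (a + b).2 : H) : G) := by
        rw [AddSubgroup.coe_sub]
        have h2 : ψ (a + b).1 + ((a + b).2 : H) = ψ (a' + b').1 + ((a' + b').2 : H) := by
          have := h'
          rw [add_assoc (t + t), add_assoc (t + t)] at this
          exact add_left_cancel this
        rw [sub_eq_sub_iff_add_eq_add, h2]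
        abel
      have h3 := hprop _ _ hN1 hN2 (by rw [h1]; exact SetLike.coe_mem _)
      have h4 : (a + b).2 = (a' + b').2 := by
        rw [h3, sub_self] at h1
        have h5 : ((a' + b').2 - (a + b).2 : H) = 0 := by
          apply Subtype.ext
          rw [← h1]; rfl
        exact (sub_eq_zero.1 h5).symm
      exact Prod.ext h3 h4
  obtain ⟨K', hK'⟩ : ∃ K' : ℝ, K' = K * M := ⟨_, rfl⟩
  have hK'1 : 1 ≤ K' := by rw [hK']; exact one_le_mul_of_one_le_of_one_le hK1 hM1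
  have hdoub : ((A₂ + A₂).card : ℝ) ≤ K' * A₂.card := by
    calc ((A₂ + A₂).card : ℝ) ≤ (A + A).card := by exact_mod_cast hsum
      _ ≤ K * A.card := hK
      _ ≤ K * (M * A₁.card) := by gcongr
      _ = K' * A₂.card := by rw [hA₂c, hK']; ring
  obtain ⟨S, T', hS, hT', hcov'⟩ := weak_fst K' A₂ hA₂ne hdoub
  obtain ⟨L, hL⟩ : ∃ L : ℝ, L = K' ^ 185 := ⟨_, rfl⟩
  rw [← hL] at hT'
  obtain ⟨m, e, N', hm, heinj, hN', hNN', hrep⟩ := rank_step N hN S
  -- one coset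
  obtain ⟨t', ht', hpig'⟩ := pigeon A₂ T'
    (fun s a => (a - s).1 ∈ AddSubgroup.closure (S : Set (Fin d → ℤ))) hA₂ne hcov'
  obtain ⟨A₃, hA₃⟩ : ∃ A₃, A₃ = A₂.filter
    (fun a => (a - t').1 ∈ AddSubgroup.closure (S : Set (Fin d → ℤ))) := ⟨_, rfl⟩
  rw [← hA₃] at hpig'
  have hA₃A : A₃ ⊆ A₂ := by rw [hA₃]; exact Finset.filter_subset _ _
  have hA₃c : (A₂.card : ℝ) ≤ L * A₃.card := by
    calc (A₂.card : ℝ) ≤ T'.card * A₃.card := by exact_mod_cast hpig'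
      _ ≤ L * A₃.card := mul_le_mul_of_nonneg_right hT' (Nat.cast_nonneg _)
  have hA₃ne : A₃.Nonempty := by
    rw [← Finset.card_pos]
    by_contra h
    have h0 : A₃.card = 0 := by omega
    rw [h0, Nat.cast_zero, mul_zero] at hA₃c
    have : (0 : ℝ) < A₂.card := by exact_mod_cast hA₂ne.card_pos
    linarith
  obtain ⟨E, hE⟩ : ∃ E, E = A₃.image π := ⟨_, rfl⟩
  have hπinj : Set.InjOn π (A₂ : Set ((Fin d → ℤ) × H)) := by
    intro p hp q hq h
    rw [Finset.mem_coe, hA₂] at hp hq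
    obtain ⟨a, ha, rfl⟩ := Finset.mem_image.1 hp
    obtain ⟨b, hb, rfl⟩ := Finset.mem_image.1 hq
    rw [hπℓ a ha, hπℓ b hb] at h
    rw [h]
  have hEc : E.card = A₃.card := by
    rw [hE]
    exact Finset.card_image_of_injOn (hπinj.mono (by exact_mod_cast hA₃A))
  have hEA : E ⊆ A := by
    intro z hz
    rw [hE] at hz
    obtain ⟨p, hp, rfl⟩ := Finset.mem_image.1 hz
    exact hA₁A (hA₂1 p (hA₃A hp)).2
  have hEne : E.Nonempty := by rw [hE]; exact hA₃ne.image _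
  have hAE : ((A + E).card : ℝ) ≤ (K' * L) * E.card := by
    calc ((A + E).card : ℝ) ≤ (A + A).card := by
          exact_mod_cast Finset.card_le_card (Finset.add_subset_add_left hEA)
      _ ≤ K * A.card := hK
      _ ≤ K * (M * A₁.card) := by gcongr
      _ = K' * A₂.card := by rw [hA₂c, hK']; ring
      _ ≤ K' * (L * A₃.card) := mul_le_mul_of_nonneg_left hA₃c (zero_le_one.trans hK'1)
      _ = (K' * L) * E.card := by rw [hEc]; ring
  obtain ⟨F, hFA, hFc, hAF⟩ := Finset.ruzsa_covering_add hEne hAE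
  have hX : ∀ a ∈ A, ∃ x ∈ F, ∃ c ∈ LL N' 2, ∃ h ∈ H, a = x + (ψ.comp e) c + h := by
    intro a ha
    obtain ⟨f, hf, z, hz, rfl⟩ := Finset.mem_add.1 (hAF ha)
    obtain ⟨u, hu, v, hv, rfl⟩ := Finset.mem_sub.1 hz
    rw [hE] at hu hv
    obtain ⟨p, hp, rfl⟩ := Finset.mem_image.1 hu
    obtain ⟨q, hq, rfl⟩ := Finset.mem_image.1 hv
    have hp3 := hp
    have hq3 := hq
    rw [hA₃] at hp3 hq3
    have hp4 := (Finset.mem_filter.1 hp3).2
    have hq4 := (Finset.mem_filter.1 hq3).2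
    have hpq : p.1 - q.1 ∈ AddSubgroup.closure (S : Set (Fin d → ℤ)) := by
      have := AddSubgroup.sub_mem _ hp4 hq4
      rw [Prod.fst_sub, Prod.fst_sub, sub_sub_sub_cancel_right] at this
      exact this
    obtain ⟨c, hc⟩ := hrep _ hpq
    refine ⟨f, hf, c, ?_, ((p.2 - q.2 : H) : G), SetLike.coe_mem _, ?_⟩
    · show N' _ ≤ 2
      rw [hNN', hc]
      have := LL_sub N (hA₂1 p (hA₃A hp)).1 (hA₂1 q (hA₃A hq)).1
      rw [one_add_one_eq_two] at this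
      exact this
    · rw [AddMonoidHom.comp_apply, hc, map_sub, AddSubgroup.coe_sub, hπ' p, hπ' q]
      abel
  have hmS : (m : ℝ) ≤ 480 * Real.log K' + 1 := by
    refine le_trans ?_ hS
    exact_mod_cast hm
  rw [hK'] at hmS
  refine ⟨m, e, N', F, hK1, hM1, hmS, heinj, hN', hNN', ?_, hX⟩
  refine hFc.trans (le_of_eq ?_)
  rw [hL, ← pow_succ', hK']

end H375.Tr
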